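import Pool.Agent.Work.MP_ce2d68_du.Interface
import Pool.Agent.Work.MP_ce2d68_st_helper90.ETG

set_option autoImplicit false

open Polynomial Filter Topology
open scoped ComplexConjugate

namespace Pool.Agent.Work.MP_ce2d68_du.h62

open Pool.Agent.Work.MP_ce2d68_st Pool.Agent.Work.MP_ce2d68_st.helper90

theorem ev_mul' (P Q : ℤ[X]) (z : ℂ) : ev (P * Q) z = ev P z * ev Q z := by
  simp [ev, cp]

theorem ev_pow' (P : ℤ[X]) (n : ℕ) (z : ℂ) : ev (P ^ n) z = ev P z ^ n := by
  simp [ev, cp]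

theorem rv_add' (f g : ℝ[X]) (z : ℂ) : rv (f + g) z = rv f z + rv g z := by
  simp [rv]

theorem rv_mul' (f g : ℝ[X]) (z : ℂ) : rv (f * g) z = rv f z * rv g z := by
  simp [rv]

theorem rv_map' (P : ℤ[X]) (z : ℂ) : rv (P.map (Int.castRingHom ℝ)) z = ev P z := by
  rw [rv, ev, cp, Polynomial.map_map]
  congr 2

theorem natDegree_prod_sd (Ls : List ℤ[X]) : Ls.prod.natDegree ≤ sd Ls := by
  induction Ls with
  | nil => simp [sd]
  | cons P Ls ih =>
    rw [List.prod_cons, sd, List.map_cons, List.sum_cons]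
    exact Polynomial.natDegree_mul_le.trans (Nat.add_le_add_left ih _)

/-- the induction over the blocks -/
theorem blocks (K : Set ℂ) (Ls : List ℤ[X]) (D : ℕ) (TP TO : ℂ → ℝ) (lam A om c C₀ : ℝ)
    (hsd : sd Ls ≤ D) (hTP : ∀ z, 0 < TP z) (hTPs : Sym TP) (hTO : ∀ z, 0 < TO z) (hTOs : Sym TO)
    (hlam : 0 ≤ lam) (hA : 0 ≤ A) (hc0 : 0 < c) (hC0 : 0 < C₀)
    (hCK : ∀ z ∈ K, 1 ≤ C₀ * TP z)
    (hi : ∀ z ∈ K, ‖ev Ls.prod z‖ ≤ Real.exp lam * TP z) (hii : ∀ z ∈ K, Real.exp om ≤ TO z)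
    (hiv : max A lam + 1 ≤ om)
    (hblk : ∀ (M : ℕ) (W : ℤ[X]) (T : ℂ → ℝ) (E : ℝ), 0 < E → Sym T →
      (∀ z ∈ K, 0 ≤ T z) → (∀ z ∈ K, ‖ev W z‖ * TP z ^ M ≤ E * T z) →
      ∀ f : ℝ[X], f.degree < (((M + 1) * D : ℕ) : WithBot ℕ) →
        ∃ (u : ℤ[X]) (h f₂ : ℝ[X]), u.degree < (((M + 1) * D : ℕ) : WithBot ℕ) ∧
          f₂.degree < ((M * D : ℕ) : WithBot ℕ) ∧
          f = 4 * u.map (Int.castRingHom ℝ) + h + Ls.prod.map (Int.castRingHom ℝ) * f₂ ∧
          ∀ z ∈ K, ‖ev W z‖ * ‖rv h z‖ ≤ c * Real.exp (A * M) * E * T z)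
    (N : ℕ) (f : ℝ[X]) (hf : f.degree < ((N * D : ℕ) : WithBot ℕ)) :
    ∀ s : ℕ, s ≤ N → ∃ (u : ℤ[X]) (h f₂ : ℝ[X]), u.degree < ((N * D : ℕ) : WithBot ℕ) ∧
      f₂.degree < (((N - s) * D : ℕ) : WithBot ℕ) ∧
      f = 4 * u.map (Int.castRingHom ℝ) + h + (Ls.prod.map (Int.castRingHom ℝ)) ^ s * f₂ ∧
      ∀ z ∈ K, ‖rv h z‖ ≤ s * (c * C₀ * Real.exp (-(N : ℝ))) * (TP z * TO z) ^ N := by
  intro s
  induction s with
  | zero =>
    intro _
    refine ⟨0, 0, f, ?_, ?_, ?_, ?_⟩
    · rw [degree_zero]; exact WithBot.bot_lt_coe _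
    · simpa using hf
    · simp
    · intro z _; simp [rv]
  | succ s ih =>
    intro hs
    obtain ⟨u, h, g, hu, hg, hfe, hh⟩ := ih (by omega)
    set M := N - 1 - s with hM
    have hN : N = s + 1 + M := by omega
    have hMs : N - s = M + 1 := by omega
    rw [hMs] at hg
    obtain ⟨u', h', g', hu', hg', hge, hh'⟩ := hblk M (Ls.prod ^ s)
      (fun z => (TP z * TO z) ^ N) (C₀ * Real.exp (lam * s - om * N)) (by positivity)
      (by intro z; simp only; rw [hTPs z, hTOs z])
      (fun z _ => by have := hTP z; have := hTO z; positivity)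
      (by
        intro z hz
        have hpz := hTP z
        have hoz := hTO z
        have h1 : ‖ev (Ls.prod ^ s) z‖ ≤ Real.exp (lam * s) * TP z ^ s := by
          rw [ev_pow', norm_pow]
          have e1 : Real.exp (lam * s) = Real.exp lam ^ s := by
            rw [← Real.exp_nat_mul]; congr 1; ring
          rw [e1, ← mul_pow]
          exact pow_le_pow_left₀ (norm_nonneg _) (hi z hz) s
        have h4 : (1 : ℝ) ≤ Real.exp (-(om * N)) * TO z ^ N := by
          have h5 : Real.exp (om * N) ≤ TO z ^ N := by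
            have : Real.exp (om * N) = Real.exp om ^ N := by
              rw [← Real.exp_nat_mul]; congr 1; ring
            rw [this]
            exact pow_le_pow_left₀ (Real.exp_pos _).le (hii z hz) N
          calc (1 : ℝ) = Real.exp (-(om * N)) * Real.exp (om * N) := by
                rw [← Real.exp_add]; simp
            _ ≤ _ := mul_le_mul_of_nonneg_left h5 (Real.exp_pos _).le
        have h6 : TP z ^ s * TP z ^ M ≤ C₀ * TP z ^ N := by
          have e2 : TP z ^ N = TP z ^ s * TP z ^ M * TP z := by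
            rw [hN, pow_add, pow_add, pow_one]; ring
          rw [e2]
          have h7 := hCK z hz
          have h8 : 0 ≤ TP z ^ s * TP z ^ M := by positivity
          calc TP z ^ s * TP z ^ M = TP z ^ s * TP z ^ M * 1 := (mul_one _).symm
            _ ≤ TP z ^ s * TP z ^ M * (C₀ * TP z) := mul_le_mul_of_nonneg_left h7 h8
            _ = _ := by ring
        have e3 : Real.exp (lam * s - om * N) = Real.exp (lam * s) * Real.exp (-(om * N)) := by
          rw [← Real.exp_add]; congr 1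
        rw [e3]
        calc ‖ev (Ls.prod ^ s) z‖ * TP z ^ M
            ≤ (Real.exp (lam * s) * TP z ^ s) * TP z ^ M :=
              mul_le_mul_of_nonneg_right h1 (by positivity)
          _ = Real.exp (lam * s) * (TP z ^ s * TP z ^ M) * 1 := by ring
          _ ≤ Real.exp (lam * s) * (C₀ * TP z ^ N) * (Real.exp (-(om * N)) * TO z ^ N) := by
              apply mul_le_mul _ h4 zero_le_one (by positivity)
              exact mul_le_mul_of_nonneg_left h6 (Real.exp_pos _).le
          _ = C₀ * (Real.exp (lam * s) * Real.exp (-(om * N))) * (TP z * TO z) ^ N := by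
              rw [mul_pow]; ring)
      g hg
    refine ⟨u + Ls.prod ^ s * u', h + (Ls.prod.map (Int.castRingHom ℝ)) ^ s * h', g', ?_, ?_, ?_, ?_⟩
    · refine lt_of_le_of_lt (degree_add_le _ _) (max_lt hu ?_)
      by_cases hu0 : u' = 0
      · rw [hu0, mul_zero, degree_zero]; exact WithBot.bot_lt_coe _
      · by_cases hL0 : Ls.prod ^ s * u' = 0
        · rw [hL0, degree_zero]; exact WithBot.bot_lt_coe _
        · rw [← Polynomial.natDegree_lt_iff_degree_lt hL0]
          have h1 : u'.natDegree < (M + 1) * D :=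
            (Polynomial.natDegree_lt_iff_degree_lt hu0).mpr hu'
          have h2 : (Ls.prod ^ s).natDegree ≤ s * D :=
            Polynomial.natDegree_pow_le.trans
              (Nat.mul_le_mul_left s ((natDegree_prod_sd Ls).trans hsd))
          have h3 : N * D = s * D + (M + 1) * D := by rw [hN]; ring
          rw [h3]
          exact lt_of_le_of_lt Polynomial.natDegree_mul_le (by omega)
    · have : N - (s + 1) = M := by omega
      rw [this]; exact hg'
    · rw [hfe]
      conv_lhs => rw [hge]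
      simp only [Polynomial.map_add, Polynomial.map_mul, Polynomial.map_pow]
      ring
    · intro z hz
      have hpz := hTP z
      have hoz := hTO z
      have h1 := hh z hz
      have h2 := hh' z hz
      have hTN : 0 ≤ (TP z * TO z) ^ N := by positivity
      have h3 : ‖rv ((Ls.prod.map (Int.castRingHom ℝ)) ^ s * h') z‖
          = ‖ev (Ls.prod ^ s) z‖ * ‖rv h' z‖ := by
        rw [rv_mul', norm_mul, ← Polynomial.map_pow, rv_map']
      have h4 : c * Real.exp (A * M) * (C₀ * Real.exp (lam * s - om * N))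
          ≤ c * C₀ * Real.exp (-(N : ℝ)) := by
        have h5 : Real.exp (A * M) * Real.exp (lam * s - om * N) ≤ Real.exp (-(N : ℝ)) := by
          rw [← Real.exp_add]
          apply Real.exp_le_exp.mpr
          have hNr : (N : ℝ) = s + 1 + M := by exact_mod_cast hN
          have hMr : (0 : ℝ) ≤ M := Nat.cast_nonneg _
          have hsr : (0 : ℝ) ≤ s := Nat.cast_nonneg _
          have e1 : lam * s ≤ max A lam * s := mul_le_mul_of_nonneg_right (le_max_right _ _) hsr
          have e2 : A * M ≤ max A lam * M := mul_le_mul_of_nonneg_right (le_max_left _ _) hMr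
          have e3 : 0 ≤ max A lam := hA.trans (le_max_left _ _)
          have e4 : (max A lam + 1) * N ≤ om * N :=
            mul_le_mul_of_nonneg_right hiv (Nat.cast_nonneg _)
          have e5 : (max A lam + 1) * N = max A lam * s + max A lam * M + max A lam + N := by
            rw [hNr]; ring
          linarith
        calc c * Real.exp (A * M) * (C₀ * Real.exp (lam * s - om * N))
            = c * C₀ * (Real.exp (A * M) * Real.exp (lam * s - om * N)) := by ring
          _ ≤ c * C₀ * Real.exp (-(N : ℝ)) := mul_le_mul_of_nonneg_left h5 (by positivity)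
      rw [rv_add']
      refine (norm_add_le _ _).trans ?_
      rw [h3]
      have h6 := mul_le_mul_of_nonneg_right h4 hTN
      push_cast
      calc ‖rv h z‖ + ‖ev (Ls.prod ^ s) z‖ * ‖rv h' z‖
          ≤ s * (c * C₀ * Real.exp (-(N : ℝ))) * (TP z * TO z) ^ N
            + c * C₀ * Real.exp (-(N : ℝ)) * (TP z * TO z) ^ N := add_le_add h1 (h2.trans h6)
        _ = _ := by ring

theorem p_EXT (hB : Stmt_NBAS) (hK' : Stmt_NBLK) (hT' : Stmt_TOPP) (hM' : Stmt_MAXP)
    (hE' : Stmt_EIS) : Stmt_EXT := by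
  intro K Ls D m TP TO p₀ p lam A om hK hKc hIP hsd hD hTP hTPs hTO hTOpos hTOs hlam hA hi hii hiii
    hiv hp0 hp0r hp0d hp0K hp hpd hpr hpK hpoff hBB N₀
  have hTPpos := hTP.2.1
  obtain ⟨c, hc0, hblk⟩ := hK' K Ls D TP p₀ A hK hKc hIP hsd hTP hTPs hp0 hp0r hp0d hp0K hA hiii
  -- the function T
  set T : ℂ → ℝ := fun z => TP z * TO z with hT
  have hTpos : ∀ z, 0 < T z := fun z => mul_pos (hTPpos z) (hTOpos z)
  have hTcont : Continuous T := by
    have h1 := hTP.1
    simp only [hT]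
    fun_prop
  -- the constant C₀
  obtain ⟨C₀, hC0, hCK⟩ : ∃ C₀ : ℝ, 0 < C₀ ∧ ∀ z ∈ K, 1 ≤ C₀ * TP z := by
    have hcont : ContinuousOn (fun z : ℂ => 1 / TP z) K := by
      apply Continuous.continuousOn
      apply Continuous.div continuous_const hTP.1
      intro z; exact (hTPpos z).ne'
    obtain ⟨B, hB'⟩ := hK.bddAbove_image hcont
    refine ⟨max B 1, lt_of_lt_of_le one_pos (le_max_right _ _), fun z hz => ?_⟩
    have h1 : 1 / TP z ≤ max B 1 := (hB' ⟨z, hz, rfl⟩).trans (le_max_left _ _)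
    rwa [div_le_iff₀ (hTPpos z)] at h1
  obtain ⟨N, hN0, hN1, hNsmall⟩ := exists_large c C₀ 0 0 N₀
  refine ⟨N, hN0, ?_⟩
  set n := N * (D + m) with hn
  set m' := N * m with hm'
  have hnm : n - m' = N * D := by
    have : n = N * D + m' := by rw [hn, hm', mul_add]
    omega
  have hND : 1 ≤ N * D := Nat.one_le_iff_ne_zero.mpr (Nat.mul_ne_zero (by omega) (by omega))
  have hmn : m' < n := by
    have : n = N * D + m' := by rw [hn, hm', mul_add]
    omega
  set H : ℤ[X] := X ^ (N * D) with hH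
  have hHm : H.Monic := monic_X_pow _
  have hHd : H.natDegree = n - m' := by rw [hnm, hH, natDegree_X_pow]
  obtain ⟨pR, hpR, hpRd, hpRm⟩ := exists_real_of_RealP p hpr
  have hpRm' := hpRm hp
  have hBex : ∀ i ∈ Finset.Icc 1 m', ∃ B : ℝ[X], B.Monic ∧ B.natDegree = n - i ∧
      ∀ z ∈ K, ‖rv B z‖ ≤ (1 / 10 : ℝ) ^ i * T z ^ N := by
    intro i hi'
    obtain ⟨B, hB1, hB2, hB3, hB4⟩ := hBB N hN1 i hi'
    obtain ⟨BR, hBR, hBRd, hBRm⟩ := exists_real_of_RealP B hB2
    refine ⟨BR, hBRm hB1, by rw [hBRd, hB3], ?_⟩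
    intro z hz
    rw [rv, hBR]
    exact hB4 z hz
  choose! B hBm hBd hBb using hBex
  obtain ⟨t, v, ht, hvd, hdeg⟩ := hT' n m' H (pR ^ N) B hmn hHm hHd (hpRm'.pow N)
    (by rw [hpRm'.natDegree_pow, hpRd, hpd]) (fun i hi' => ⟨hBm i hi', hBd i hi'⟩)
  rw [hnm] at hdeg
  set f : ℝ[X] := pR ^ N + ∑ i ∈ Finset.Icc 1 m', C (t i) * B i - X ^ n - 2
        - 4 * (H * v).map (Int.castRingHom ℝ) with hf
  obtain ⟨U, h, g, hUd, hgd, hfe, hhb⟩ := blocks K Ls D TP TO lam A om c C₀ hsd hTPpos hTPs hTOpos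
    hTOs hlam hA hc0 hC0 hCK hi hii hiv hblk N f hdeg N le_rfl
  have hg0 : g = 0 := by
    rw [Nat.sub_self, zero_mul] at hgd
    by_contra hne
    rw [degree_eq_natDegree hne] at hgd
    have : g.natDegree < 0 := by exact_mod_cast hgd
    omega
  rw [hg0, mul_zero, add_zero] at hfe
  have hhb' : ∀ z ∈ K, ‖rv h z‖ ≤ 1 / 4 * T z ^ N := by
    intro z hz
    refine (hhb z hz).trans ?_
    apply mul_le_mul_of_nonneg_right _ (pow_pos (hTpos z) N).le
    calc (N : ℝ) * (c * C₀ * Real.exp (-(N : ℝ)))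
        = c * (C₀ * N * Real.exp (-(N : ℝ)) + 0 * N * Real.exp (0 - N)) := by ring
      _ ≤ 1 / 4 := hNsmall
  -- the polynomial F
  have hHvU : (H * v + U).degree < (n : WithBot ℕ) := by
    refine lt_of_le_of_lt (degree_add_le _ _) (max_lt ?_ ?_)
    · by_cases hv0 : v = 0
      · rw [hv0, mul_zero, degree_zero]; exact WithBot.bot_lt_coe _
      · have h1 : v.natDegree < m' := (Polynomial.natDegree_lt_iff_degree_lt hv0).mpr hvd
        have h2 : (H * v).natDegree < n := by
          refine lt_of_le_of_lt Polynomial.natDegree_mul_le ?_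
          rw [hHd]
          omega
        exact (Polynomial.natDegree_lt_iff_degree_lt (mul_ne_zero hHm.ne_zero hv0)).mp h2
    · refine hUd.trans_le ?_
      have : N * D ≤ n := by omega
      exact_mod_cast this
  obtain ⟨hFm, hFd, hFi, hF0⟩ := hE' n (H * v + U) (by omega) hHvU
  set F : ℤ[X] := X ^ n + 2 + 4 * (H * v + U) with hF
  have hFR : F.map (Int.castRingHom ℝ)
      = pR ^ N + ∑ i ∈ Finset.Icc 1 m', C (t i) * B i - h := by
    have h1 : F.map (Int.castRingHom ℝ) = X ^ n + 2 + 4 * (H * v).map (Int.castRingHom ℝ)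
        + 4 * U.map (Int.castRingHom ℝ) := by
      rw [hF]
      simp only [Polynomial.map_add, Polynomial.map_mul, Polynomial.map_pow, Polynomial.map_X,
        Polynomial.map_ofNat]
      ring
    have h2 : f - 4 * U.map (Int.castRingHom ℝ) = h := by rw [hfe]; ring
    rw [h1, ← h2, hf]
    ring
  have hFev : ∀ z : ℂ, ev F z = (p.eval z) ^ N + ∑ i ∈ Finset.Icc 1 m', (t i : ℂ) * rv (B i) z
      - rv h z := by
    intro z
    have h1 : ev F z = ((F.map (Int.castRingHom ℝ)).map (algebraMap ℝ ℂ)).eval z := by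
      rw [ev, cp, Polynomial.map_map]
      congr 2
    rw [h1, hFR]
    simp only [Polynomial.map_sub, Polynomial.map_add, Polynomial.map_pow, hpR,
      Polynomial.map_sum, Polynomial.map_mul, Polynomial.map_C, eval_sub, eval_add, eval_pow,
      Polynomial.eval_finsetSum, eval_mul, eval_C, rv]
    rfl
  have hFK : ∀ z ∈ K, ‖ev F z - (p.eval z) ^ N‖ ≤ 1 / 2 * T z ^ N := by
    intro z hz
    have hTN := pow_pos (hTpos z) N
    have h1 : ev F z - (p.eval z) ^ N = ∑ i ∈ Finset.Icc 1 m', (t i : ℂ) * rv (B i) z - rv h z := by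
      rw [hFev]; ring
    rw [h1]
    have h2 : ‖∑ i ∈ Finset.Icc 1 m', (t i : ℂ) * rv (B i) z‖ ≤ 2 / 9 * T z ^ N := by
      calc ‖∑ i ∈ Finset.Icc 1 m', (t i : ℂ) * rv (B i) z‖
          ≤ ∑ i ∈ Finset.Icc 1 m', ‖(t i : ℂ) * rv (B i) z‖ := norm_sum_le _ _
        _ ≤ ∑ i ∈ Finset.Icc 1 m', (1 / 10 : ℝ) ^ i * (2 * T z ^ N) := by
            apply Finset.sum_le_sum
            intro i hi'
            rw [norm_mul, Complex.norm_real, Real.norm_eq_abs]
            have h3 := hBb i hi' z hz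
            calc |t i| * ‖rv (B i) z‖ ≤ 2 * ((1 / 10 : ℝ) ^ i * T z ^ N) :=
                  mul_le_mul (ht i) h3 (norm_nonneg _) (by norm_num)
              _ = _ := by ring
        _ = (∑ i ∈ Finset.Icc 1 m', (1 / 10 : ℝ) ^ i) * (2 * T z ^ N) := by
            rw [Finset.sum_mul]
        _ ≤ 1 / 9 * (2 * T z ^ N) := mul_le_mul_of_nonneg_right (geo_bound m') (by positivity)
        _ = _ := by ring
    calc ‖∑ i ∈ Finset.Icc 1 m', (t i : ℂ) * rv (B i) z - rv h z‖
        ≤ ‖∑ i ∈ Finset.Icc 1 m', (t i : ℂ) * rv (B i) z‖ + ‖rv h z‖ := norm_sub_le _ _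
      _ ≤ 2 / 9 * T z ^ N + 1 / 4 * T z ^ N := add_le_add h2 (hhb' z hz)
      _ ≤ 1 / 2 * T z ^ N := by nlinarith
  have hFoff : ∀ z, z ∉ K → ‖ev F z - (p.eval z) ^ N‖ ≤ 1 / 2 * ‖(p.eval z) ^ N‖ := by
    have hpN : (p ^ N).natDegree = n := by rw [hp.natDegree_pow, hpd]
    have hcF : (cp F).Monic := hFm.map _
    have hcFd : (cp F).natDegree = n := by
      rw [cp, hFm.natDegree_map, hFd]
    have hdeg' : (cp F - p ^ N).degree < (p ^ N).degree := by
      have h1 : (cp F).degree = (p ^ N).degree := by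
        rw [degree_eq_natDegree hcF.ne_zero, degree_eq_natDegree (hp.pow N).ne_zero, hcFd, hpN]
      have h2 : (cp F - p ^ N).degree < (cp F).degree := by
        apply degree_sub_lt_left h1 hcF.ne_zero
        rw [hcF.leadingCoeff, (hp.pow N).leadingCoeff]
      rwa [h1] at h2
    have h3 := hM' K (fun z => T z ^ N) (cp F - p ^ N) (p ^ N) hK (hTcont.pow N) hdeg'
      (fun z => pow_pos (hTpos z) N)
      (fun z hz => by rw [eval_pow, norm_pow, hpoff z hz])
      (fun z hz => by
        have := hFK z hz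
        rw [eval_sub, eval_pow]
        exact this)
    intro z hz
    have := h3 z hz
    rw [eval_sub, eval_pow] at this
    exact this
  refine ⟨F, hFm, hFd, hFi, hF0, ?_, ?_⟩
  · intro z hz0
    by_contra hzK
    have h1 := hFoff z hzK
    rw [hz0, zero_sub, norm_neg] at h1
    have h2 : 0 < ‖(p.eval z) ^ N‖ := by
      rw [norm_pow, hpoff z hzK]
      exact pow_pos (hTpos z) N
    linarith
  · intro z
    by_cases hzK : z ∈ K
    · have h1 := hFK z hzK
      have h2 : ‖(p.eval z) ^ N‖ ≤ T z ^ N := by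
        rw [norm_pow]
        exact pow_le_pow_left₀ (norm_nonneg _) (hpK z hzK) N
      calc ‖ev F z‖ = ‖(ev F z - (p.eval z) ^ N) + (p.eval z) ^ N‖ := by rw [sub_add_cancel]
        _ ≤ ‖ev F z - (p.eval z) ^ N‖ + ‖(p.eval z) ^ N‖ := norm_add_le _ _
        _ ≤ 1 / 2 * T z ^ N + T z ^ N := add_le_add h1 h2
        _ = 3 / 2 * T z ^ N := by ring
    · have h1 := hFoff z hzK
      have h2 : ‖(p.eval z) ^ N‖ = T z ^ N := by
        rw [norm_pow, hpoff z hzK]
      rw [h2] at h1
      calc ‖ev F z‖ = ‖(ev F z - (p.eval z) ^ N) + (p.eval z) ^ N‖ := by rw [sub_add_cancel]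
        _ ≤ ‖ev F z - (p.eval z) ^ N‖ + ‖(p.eval z) ^ N‖ := norm_add_le _ _
        _ ≤ 1 / 2 * T z ^ N + T z ^ N := add_le_add h1 h2.le
        _ = 3 / 2 * T z ^ N := by ring

end Pool.Agent.Work.MP_ce2d68_du.h62
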